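import Mathlib

set_option autoImplicit false

namespace Pool.Agent.Results.MP_bfac72_an.Counter

open Topology

/-- S_T(U, δ) -/
def Sens {X : Type} [MetricSpace X] (T : X → X) (U : Set X) (δ : ℝ) : Set ℕ :=
  {n | ∃ x ∈ U, ∃ y ∈ U, δ < dist (T^[n] x) (T^[n] y)}

/-- the family of all sets containing some S_T(U, δ) with U nonempty open -/
def SFam {X : Type} [MetricSpace X] (T : X → X) (δ : ℝ) : Set (Set ℕ) :=
  {A | ∃ U : Set X, IsOpen U ∧ U.Nonempty ∧ Sens T U δ ⊆ A}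

def IsFilter (F : Set (Set ℕ)) : Prop :=
  F.Nonempty ∧ F ≠ Set.univ ∧ ∀ A ∈ F, ∀ B ∈ F, A ∩ B ∈ F

def FilterSensitive {X : Type} [MetricSpace X] (T : X → X) : Prop :=
  ∃ δ : ℝ, 0 < δ ∧ IsFilter (SFam T δ)

def IsTransitive {X : Type} [TopologicalSpace X] (T : X → X) : Prop :=
  ∀ U V : Set X, IsOpen U → U.Nonempty → IsOpen V → V.Nonempty →
    ∃ n : ℕ, (T^[n] '' U ∩ V).Nonempty

def Thick (A : Set ℕ) : Prop := ∀ L : ℕ, ∃ a : ℕ, ∀ i < L, a + i ∈ A

def ThicklySensitive {X : Type} [MetricSpace X] (T : X → X) : Prop :=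
  ∃ δ : ℝ, 0 < δ ∧ ∀ U : Set X, IsOpen U → U.Nonempty → Thick (Sens T U δ)

def pw (k : ℕ) : ℕ := 4 ^ (k + 1)

lemma f1 {j k : ℕ} (h : j < k) : 4 * pw j ≤ pw k := by
  unfold pw
  rw [← pow_succ']
  exact Nat.pow_le_pow_right (by norm_num) (by omega)

lemma f2 (k : ℕ) : 4 * k < pw k := by
  unfold pw
  have : k < 4 ^ k := Nat.lt_pow_self (by norm_num)
  rw [pow_succ]; omega

def len (k : ℕ) : ℕ := (Nat.unpair k).1

lemma len_le (k : ℕ) : len k ≤ k := Nat.unpair_left_le k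

lemma len_ex (r L : ℕ) : ∃ k, L ≤ k ∧ len k = r :=
  ⟨Nat.pair r L, Nat.right_le_pair r L, by simp [len]⟩

def inA (n : ℕ) : Prop := ∃ k s, n = pw k + s ∧ s < len k

lemma near {k n : ℕ} (h : inA n) (h1 : pw k ≤ n + k) (h2 : n < 4 * pw k) :
    pw k ≤ n ∧ n < pw k + len k := by
  obtain ⟨l, s, e, hs⟩ := h
  have a1 := f2 k
  have a2 := f2 l
  have a3 := len_le l
  rcases lt_trichotomy l k with h | h | h
  · have := f1 h
    omega
  · subst h
    omega
  · have := f1 h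
    omega

lemma not0 : ¬ inA 0 := by
  rintro ⟨j, s, a1, -⟩
  have := f2 j
  omega

def P (y : ℕ → Bool) : Prop := ∀ i d, y i = true → y (i + d) = true → ¬ inA d

def Y : Type := {y : ℕ → Bool // P y}

noncomputable instance : MetricSpace Y :=
  letI : MetricSpace (ℕ → Bool) := PiNat.metricSpace
  inferInstanceAs (MetricSpace {y : ℕ → Bool // P y})

lemma closedP : IsClosed {y : ℕ → Bool | P y} := by
  have : {y : ℕ → Bool | P y} = ⋂ i, ⋂ d, {y | y i = true → y (i + d) = true → ¬ inA d} := by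
    ext x; simp only [P, Set.mem_ofPred_eq, Set.mem_iInter]
  rw [this]
  refine isClosed_iInter fun i => isClosed_iInter fun d => ?_
  by_cases hC : inA d
  · have e : {y : ℕ → Bool | y i = true → y (i + d) = true → ¬ inA d} =
        ((fun y : ℕ → Bool => y i) ⁻¹' {true} ∩ (fun y : ℕ → Bool => y (i + d)) ⁻¹' {true})ᶜ := by
      ext y; simp [hC]
    rw [e, isClosed_compl_iff]
    exact ((isOpen_discrete _).preimage (continuous_apply i)).inter
      ((isOpen_discrete _).preimage (continuous_apply (i + d)))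
  · simp [hC]

instance : CompactSpace Y := isCompact_iff_compactSpace.1 closedP.isCompact

lemma dist_le {x y : Y} {r : ℕ} (h : ∀ i < r, x.1 i = y.1 i) : dist x y ≤ (1 / 2) ^ r :=
  PiNat.mem_cylinder_iff_dist_le.1 (PiNat.mem_cylinder_iff.2 h)

lemma dist_ge {x y : Y} (h : x.1 0 ≠ y.1 0) : 1 ≤ dist x y := by
  by_contra hc
  exact h (PiNat.apply_eq_of_dist_lt (x := x.1) (y := y.1) (n := 0)
    (by rw [pow_zero]; exact not_le.1 hc) le_rfl)

def T (y : Y) : Y :=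
  ⟨fun n => y.1 (n + 1), fun i d h1 h2 =>
    y.2 (i + 1) d h1 (by rw [show i + 1 + d = i + d + 1 by omega]; exact h2)⟩

lemma T_iter (n : ℕ) (y : Y) (m : ℕ) : (T^[n] y).1 m = y.1 (m + n) := by
  induction n generalizing y with
  | zero => rfl
  | succ n ih => rw [Function.iterate_succ_apply, ih]; rfl

lemma cont_ev (h : ℕ) : Continuous fun x : Y => x.1 h :=
  (continuous_apply h).comp continuous_subtype_val

lemma T_cont : Continuous T :=
  Continuous.subtype_mk (continuous_pi fun h => cont_ev (h + 1)) _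

lemma T_surj : Function.Surjective T := by
  intro y
  refine ⟨⟨fun n => Nat.casesOn n false y.1, ?_⟩, rfl⟩
  intro i d h1 h2
  cases i with
  | zero => simp at h1
  | succ i =>
    rw [show i + 1 + d = i + d + 1 by omega] at h2
    exact y.2 i d h1 h2

lemma cyl {z : Y} {U : Set Y} (hU : U ∈ 𝓝 z) :
    ∃ L, 1 ≤ L ∧ ∀ y : Y, (∀ i < L, y.1 i = z.1 i) → y ∈ U := by
  obtain ⟨ε, hε, h⟩ := Metric.mem_nhds_iff.1 hU
  obtain ⟨L, hL⟩ := exists_pow_lt_of_lt_one hε (show (1 / 2 : ℝ) < 1 by norm_num)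
  exact ⟨L + 1, by omega, fun y hy => h ((dist_le fun i hi => hy i (by omega)).trans_lt hL)⟩

def dl (a : ℕ) : Y := ⟨fun n => decide (n = a), fun i d h1 h2 => by
  simp only [decide_eq_true_eq] at h1 h2
  rw [show d = 0 by omega]
  exact not0⟩

def zr : Y := ⟨fun _ => false, fun _ _ h => by simp at h⟩

lemma glue (z w : Y) {L n : ℕ} (hn : L ≤ n)
    (h : ∀ s < L, ∀ i < L, ∀ d, z.1 s = true → w.1 i = true → s + d = i + n → ¬ inA d) :
    ∃ y : Y, (∀ i < L, y.1 i = z.1 i) ∧ ∀ i < L, (T^[n] y).1 i = w.1 i := by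
  refine ⟨⟨fun m => if m < L then z.1 m else if n ≤ m ∧ m < n + L then w.1 (m - n) else false,
    ?_⟩, fun i hi => by simp [hi], fun i hi => ?_⟩
  · intro i d h1 h2
    simp only at h1 h2
    split_ifs at h1 h2 with a b c d' e
    · exact z.2 i d h1 h2
    · exact h i a (i + d - n) (by omega) d h1 h2 (by omega)
    · omega
    · exact w.2 (i - n) d h1 (by rwa [show i - n + d = i + d - n by omega])
  · rw [T_iter]
    simp only
    rw [if_neg (by omega), if_pos (by omega), show i + n - n = i by omega]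

lemma sens {U : Set Y} {z : Y} {L n : ℕ} {δ : ℝ} (hδ : δ < 1) (hL : 1 ≤ L)
    (hU : ∀ y : Y, (∀ i < L, y.1 i = z.1 i) → y ∈ U) (hn : L ≤ n)
    (h : ∀ s < L, ∀ d, z.1 s = true → s + d = n → ¬ inA d) : n ∈ Sens T U δ := by
  obtain ⟨x, x1, x2⟩ := glue z (dl 0) hn (by
    intro s hs i _ d h1 h2 h3
    have : i = 0 := of_decide_eq_true h2
    exact h s hs d h1 (by omega))
  obtain ⟨y, y1, y2⟩ := glue z zr hn (by
    intro s _ i _ d _ h2
    simp [zr] at h2)
  refine ⟨x, hU x x1, y, hU y y1, hδ.trans_le (dist_ge ?_)⟩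
  rw [x2 0 hL, y2 0 hL]
  simp [dl, zr]

lemma glue2 (z w : Y) (L : ℕ) :
    ∃ y : Y, (∀ i < L, y.1 i = z.1 i) ∧ ∀ i < L, (T^[2 * pw L] y).1 i = w.1 i := by
  have := f2 L
  refine glue z w (by omega) fun s hs i hi d _ _ e hd => ?_
  have h1 := near (k := L) hd (by omega) (by omega)
  have h2 := len_le L
  omega

lemma trans1 : IsTransitive T := by
  rintro U V hU ⟨z, hz⟩ hV ⟨w, hw⟩
  obtain ⟨L1, -, g1⟩ := cyl (hU.mem_nhds hz)
  obtain ⟨L2, -, g2⟩ := cyl (hV.mem_nhds hw)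
  obtain ⟨y, y1, y2⟩ := glue2 z w (L1 + L2)
  exact ⟨_, _, ⟨y, g1 y fun i hi => y1 i (by omega), rfl⟩, g2 _ fun i hi => y2 i (by omega)⟩

lemma trans2 : IsTransitive (Prod.map T T) := by
  rintro U V hU ⟨⟨z, z'⟩, hz⟩ hV ⟨⟨w, w'⟩, hw⟩
  obtain ⟨U1, h1, U2, h2, hU'⟩ := mem_nhds_prod_iff.1 (hU.mem_nhds hz)
  obtain ⟨V1, h3, V2, h4, hV'⟩ := mem_nhds_prod_iff.1 (hV.mem_nhds hw)
  obtain ⟨L1, -, g1⟩ := cyl h1
  obtain ⟨L2, -, g2⟩ := cyl h2
  obtain ⟨L3, -, g3⟩ := cyl h3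
  obtain ⟨L4, -, g4⟩ := cyl h4
  obtain ⟨y, y1, y2⟩ := glue2 z w (L1 + L2 + L3 + L4)
  obtain ⟨x, x1, x2⟩ := glue2 z' w' (L1 + L2 + L3 + L4)
  refine ⟨2 * pw (L1 + L2 + L3 + L4), _, ⟨(y, x), hU' ⟨g1 y fun i hi => y1 i (by omega),
    g2 x fun i hi => x1 i (by omega)⟩, rfl⟩, hV' ?_⟩
  rw [Prod.map_iterate]
  exact ⟨g3 _ fun i hi => y2 i (by omega), g4 _ fun i hi => x2 i (by omega)⟩

lemma thick : ThicklySensitive T := by
  refine ⟨1 / 2, by norm_num, ?_⟩
  rintro U hU ⟨z, hz⟩ M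
  obtain ⟨L, hL, g⟩ := cyl (hU.mem_nhds hz)
  refine ⟨2 * pw (L + M), fun i hi => ?_⟩
  have := f2 (L + M)
  refine sens (by norm_num) hL g (by omega) fun s hs d _ e hd => ?_
  have h1 := near (k := L + M) hd (by omega) (by omega)
  have h2 := len_le (L + M)
  omega

lemma notSens {a k : ℕ} {δ : ℝ} (hδ : (1 / 2) ^ len k ≤ δ) :
    pw k + a ∉ Sens T {y | y.1 a = true} δ := by
  rintro ⟨x, hx, y, hy, h⟩
  have key : ∀ u : Y, u.1 a = true → ∀ i < len k, (T^[pw k + a] u).1 i = false := by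
    intro u hu i hi
    rw [T_iter]
    by_contra hc
    rw [Bool.not_eq_false, show i + (pw k + a) = a + (pw k + i) by omega] at hc
    exact u.2 a _ hu hc ⟨k, i, rfl, hi⟩
  have := dist_le (x := T^[pw k + a] x) (y := T^[pw k + a] y) (r := len k) fun i hi => by
    rw [key x hx i hi, key y hy i hi]
  linarith

lemma notFilter : ¬ FilterSensitive T := by
  rintro ⟨δ, hδ, -, h2, h3⟩
  have hδ1 : δ < 1 := by
    by_contra hc
    apply h2
    rw [Set.eq_univ_iff_forall]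
    refine fun A => ⟨Set.univ, isOpen_univ, ⟨zr, trivial⟩, ?_⟩
    rintro n ⟨x, -, y, -, h⟩
    have := dist_le (x := T^[n] x) (y := T^[n] y) (r := 0) fun i hi => by omega
    rw [pow_zero] at this
    linarith
  obtain ⟨r, hr⟩ := exists_pow_lt_of_lt_one hδ (show (1 / 2 : ℝ) < 1 by norm_num)
  obtain ⟨k0, -, hk0⟩ := len_ex (r + 1) 0
  have ho : ∀ a, Sens T {y | y.1 a = true} δ ∈ SFam T δ := fun a =>
    ⟨_, (isOpen_discrete {true}).preimage (cont_ev a), ⟨dl a, by simp [dl]⟩, subset_rfl⟩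
  obtain ⟨U, hU, ⟨z, hz⟩, hS⟩ := h3 _ (ho 0) _ (ho (pw k0 + r))
  obtain ⟨L, hL, g⟩ := cyl (hU.mem_nhds hz)
  obtain ⟨k, hk, hkr⟩ := len_ex r (L + (pw k0 + r))
  have a1 := f2 k
  have hz0 : z.1 0 = true := by
    by_contra hc
    refine notSens (a := 0) (k := k) (hkr ▸ hr.le) (hS (sens hδ1 hL g (by omega) ?_)).1
    intro s hs d h1 e hd
    have := near (k := k) hd (by omega) (by omega)
    exact hc (by rwa [show s = 0 by omega] at h1)
  refine notSens (a := pw k0 + r) (k := k) (hkr ▸ hr.le) (hS (sens hδ1 hL g (by omega) ?_)).2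
  intro s hs d h1 e hd
  have := near (k := k) hd (by omega) (by omega)
  exact z.2 0 s hz0 (by rwa [zero_add]) ⟨k0, s - pw k0, by omega, by omega⟩

theorem result : ∃ (X : Type) (_ : MetricSpace X) (_ : CompactSpace X) (T : X → X),
    Nontrivial X ∧ Continuous T ∧ Function.Surjective T ∧ IsTransitive T ∧
    IsTransitive (Prod.map T T) ∧ ThicklySensitive T ∧ ¬ FilterSensitive T :=
  ⟨Y, inferInstance, inferInstance, T,
    ⟨dl 0, zr, fun e => by simpa [dl, zr] using congrArg (fun y : Y => y.1 0) e⟩,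
    T_cont, T_surj, trans1, trans2, thick, notFilter⟩

end Pool.Agent.Results.MP_bfac72_an.Counter
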